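import Pool.Agent.R796.Anr

/-!
# The Vietoris-Rips shadow of a compact set need not be an ANR

For every `N ≥ 3` and every scale `β > 0` there is a nonempty compact set `M ⊂ ℝ^N` whose
Vietoris-Rips shadow at scale `β` (simplices: nonempty finite subsets of `M` of Euclidean diameter
`< β`) is not an absolute neighbourhood retract.

Definitions (`Pool.Agent.R796.Anr`):
* `rips β M`: the nonempty finite subsets of `M` of diameter less than `β`;
* `shadow β M`: the union of the convex hulls of these finite sets, with the subspace topology;
* `IsANR Y`: `Y` is metrizable, and for every closed embedding of `Y` into a metrizable space `Z`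
  there are an open set `U` containing the image and a continuous retraction of `U` onto `Y`.

The example (`M hN β`) consists of two points at distance `9β/10`, whose segment has the midpoint
`p`, and two sequences `x_n → x`, `y_n → y` with `|x_n - y_n| < β`, `|x - y| = β`, such that the
segments `[x_n, y_n]` do not meet the rest of the shadow near `p` and converge to a segment `[x, y]`
through `p` which does not belong to the complex. So the shadow is not locally connected at `p`.
-/

set_option autoImplicit false

namespace Pool.Agent.Results.MP_68dc86_gt.NotAnrShadow

open Pool.Agent.R796.Anr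

/-- For every `N ≥ 3` and `β > 0` some nonempty compact `M ⊂ ℝ^N` has a Vietoris-Rips shadow at
scale `β` which is not an ANR. -/
theorem result (N : ℕ) (hN : 3 ≤ N) (β : ℝ) (hβ : 0 < β) :
    ∃ M : Set (EuclideanSpace ℝ (Fin N)), M.Nonempty ∧ IsCompact M ∧ ¬ IsANR (shadow β M) :=
  ⟨M hN β, ⟨A hN β, Or.inl (Or.inl (Or.inl rfl))⟩, isCompact_M hN β, not_isANR hN β hβ⟩

end Pool.Agent.Results.MP_68dc86_gt.NotAnrShadow
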